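import Pool.Agent.Helper63.XP.StA

/-!
# Project XP, module S5X: the decomposition for the new functionals (adapted from module SP5 of project XR)
-/

set_option autoImplicit false

namespace Pool.Agent.Helper57.XP

open Finset
open Pool.Agent.Helper63.XP
open Pool.Agent.Helper63.XR (gen blk wt StTrh StRkt StBon)

variable {P : Type} [Fintype P] [DecidableEq P] {k b : ℕ} {d m J Q : ℕ → ℕ} {B : ℕ → ℝ} {S : Type} [Fintype S]
  [DecidableEq S]

theorem s5_mem_Al {g : LP P k b d m J Q B} {t : S → ℝ} {l : ℕ} {j : S × P} :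
    j ∈ Al g t l ↔ t j.1 = 1 ∧ g.lev j.2 = l := by
  simp [Al]

theorem s5_mem_Gs {g : LP P k b d m J Q B} {Bad : Finset (S × P)} {j u : S × P} :
    u ∈ Gs g Bad j ↔ (u.1 = j.1 ∧ u.2 ∈ g.ch j.2) ∧ u ∉ Bad := by
  unfold Gs
  rw [mem_sdiff, mem_image]
  constructor
  · rintro ⟨⟨c, hc, rfl⟩, h2⟩
    exact ⟨⟨rfl, hc⟩, h2⟩
  · rintro ⟨⟨h1, h2⟩, h3⟩
    exact ⟨⟨u.2, h2, Prod.ext h1.symm rfl⟩, h3⟩

theorem s5_wt {lam : ℝ} (hl : 0 < lam) (A n : ℕ) : 0 ≤ wt lam A n ∧ wt lam A n ≤ 1 := by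
  unfold wt
  split_ifs with h
  · refine ⟨by positivity, ?_⟩
    apply div_le_one_of_le₀ h
    positivity
  · exact ⟨le_rfl, zero_le_one⟩

theorem s5_share {g : LP P k b d m J Q B} {Bad : Finset (S × P)} {j j' : S × P} (h : j ≠ j') :
    (Gs g Bad j ∩ Gs g Bad j').card ≤ 1 := by
  by_cases h1 : j.1 = j'.1
  · have h2 : j.2 ≠ j'.2 := fun h3 => h (Prod.ext h1 h3)
    refine le_trans ?_ (g.share _ _ h2)
    apply card_le_card_of_injOn Prod.snd
    · intro u hu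
      obtain ⟨hu1, hu2⟩ := mem_inter.1 (mem_coe.1 hu)
      exact mem_coe.2 (mem_inter.2 ⟨(s5_mem_Gs.1 hu1).1.2, (s5_mem_Gs.1 hu2).1.2⟩)
    · intro u hu u' hu' huu
      obtain ⟨hu1, _⟩ := mem_inter.1 (mem_coe.1 hu)
      obtain ⟨hu1', _⟩ := mem_inter.1 (mem_coe.1 hu')
      exact Prod.ext ((s5_mem_Gs.1 hu1).1.1.trans (s5_mem_Gs.1 hu1').1.1.symm) huu
  · have h2 : Gs g Bad j ∩ Gs g Bad j' = ∅ := by
      rw [eq_empty_iff_forall_notMem]
      intro u hu
      obtain ⟨hu1, hu2⟩ := mem_inter.1 hu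
      exact h1 ((s5_mem_Gs.1 hu1).1.1.symm.trans (s5_mem_Gs.1 hu2).1.1)
    rw [h2, card_empty]
    exact Nat.zero_le _

theorem s5_card {g : LP P k b d m J Q B} {Bad : Finset (S × P)} {t : S → ℝ} {l : ℕ} (hl : l < k) {j : S × P}
    (hj : j ∈ Al g t l) : (Gs g Bad j).card ≤ d l := by
  have h1 := (s5_mem_Al.1 hj).2
  have h2 : (g.ch j.2).card = d l := by
    rw [g.card_ch j.2 (by omega), h1]
  rw [← h2]
  unfold Gs
  exact (card_le_card sdiff_subset).trans card_image_le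

theorem s5_psi {g : LP P k b d m J Q B} {p lam : ℝ} {Bad : Finset (S × P)} {l : ℕ}
    {ψ : ℕ → (S × P) → (S × P) → ℂ} {q : ℕ} (hq : l < q) (j : S × P) (f : S × P → ℂ) :
    pc (psiN g p lam Bad l ψ q j) f =
      ((wt lam (d l) (Gs g Bad j).card * (d l : ℝ) ^ (1 / p - 1) : ℝ) : ℂ) *
        ∑ u ∈ Gs g Bad j, star (g.σ u.2 j.2) * pc (ψ q u) f := by
  have h1 : ∀ i, psiN g p lam Bad l ψ q j i =
      ((wt lam (d l) (Gs g Bad j).card * (d l : ℝ) ^ (1 / p - 1) : ℝ) : ℂ) *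
        ∑ u ∈ Gs g Bad j, star (g.σ u.2 j.2) * ψ q u i := by
    intro i
    unfold psiN
    rw [if_neg (by omega), if_pos hq]
  unfold pc
  have h2 : ∀ u, star (g.σ u.2 j.2) * ∑ i, ψ q u i * f i = ∑ i, star (g.σ u.2 j.2) * (ψ q u i * f i) :=
    fun u => mul_sum _ _ _
  simp only [h2]
  rw [sum_comm, mul_sum]
  apply sum_congr rfl
  intro i _
  rw [h1, mul_assoc, sum_mul]
  congr 1
  apply sum_congr rfl
  intro u _
  ring

/-- the core hypothesis for the functionals -/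
theorem s5_core {g : LP P k b d m J Q B} {Bad : Finset (S × P)} {t : S → ℝ} {l : ℕ} (hl : l < k)
    (T' : Finset {j // j ∈ Al g t l}) (U' : Finset (S × P)) (hT : T'.Nonempty)
    (h1 : ∀ x ∈ T', J l ≤ (Gs g Bad x.1 ∩ U').card)
    (h2 : ∀ u ∈ U', 2 ≤ (T'.filter fun x => u ∈ Gs g Bad x.1).card) : Q l < U'.card := by
  obtain ⟨x0, hx0⟩ := hT
  have key := g.core l hl ((T'.filter fun x => x.1.1 = x0.1.1).image fun x => x.1.2)
    ((U'.filter fun u => u.1 = x0.1.1).image Prod.snd)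
    ⟨x0.1.2, mem_image.2 ⟨x0, mem_filter.2 ⟨hx0, rfl⟩, rfl⟩⟩
    (by
      intro v hv
      obtain ⟨x, hx, rfl⟩ := mem_image.1 hv
      obtain ⟨hx1, hx2⟩ := mem_filter.1 hx
      refine ⟨(s5_mem_Al.1 x.2).2, le_trans (h1 x hx1) ?_⟩
      apply card_le_card_of_injOn Prod.snd
      · intro u hu
        obtain ⟨hu1, hu2⟩ := mem_inter.1 (mem_coe.1 hu)
        have hu3 := s5_mem_Gs.1 hu1
        exact mem_coe.2 (mem_inter.2 ⟨hu3.1.2, mem_image.2 ⟨u, mem_filter.2 ⟨hu2, hu3.1.1.trans hx2⟩, rfl⟩⟩)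
      · intro u hu u' hu' huu
        obtain ⟨hu1, _⟩ := mem_inter.1 (mem_coe.1 hu)
        obtain ⟨hu1', _⟩ := mem_inter.1 (mem_coe.1 hu')
        exact Prod.ext ((s5_mem_Gs.1 hu1).1.1.trans (s5_mem_Gs.1 hu1').1.1.symm) huu)
    (by
      intro c hc
      obtain ⟨u, hu, rfl⟩ := mem_image.1 hc
      obtain ⟨hu1, hu2⟩ := mem_filter.1 hu
      refine le_trans (h2 u hu1) ?_
      apply card_le_card_of_injOn (fun x : {j // j ∈ Al g t l} => x.1.2)
      · intro x hx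
        obtain ⟨hx1, hx2⟩ := mem_filter.1 (mem_coe.1 hx)
        have hx3 := s5_mem_Gs.1 hx2
        exact mem_coe.2 (mem_filter.2 ⟨mem_image.2 ⟨x, mem_filter.2 ⟨hx1, hx3.1.1.symm.trans hu2⟩, rfl⟩, hx3.1.2⟩)
      · intro x hx y hy hxy
        obtain ⟨_, hx2⟩ := mem_filter.1 (mem_coe.1 hx)
        obtain ⟨_, hy2⟩ := mem_filter.1 (mem_coe.1 hy)
        exact Subtype.ext (Prod.ext ((s5_mem_Gs.1 hx2).1.1.symm.trans (s5_mem_Gs.1 hy2).1.1) hxy))
  exact lt_of_lt_of_le key (card_image_le.trans (card_le_card (filter_subset _ _)))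

/-- the `l^2` hypothesis for the functionals -/
theorem s5_l2 {g : LP P k b d m J Q B} {Bad : Finset (S × P)} {t : S → ℝ} {l : ℕ} (hl : l < k)
    (hAdj : ∀ l, l < k → ∀ y : P → ℂ, ∑ v ∈ univ.filter (fun v => g.lev v = l),
      ‖∑ c ∈ g.ch v, star (g.σ c v) * y c‖ ^ 2 ≤ B l * ∑ c, ‖y c‖ ^ 2) {B' : ℝ} (hB : B l ≤ B')
    (hB' : 0 ≤ B') (y : S × P → ℂ) :
    ∑ x : {j // j ∈ Al g t l}, ‖∑ u ∈ Gs g Bad x.1, star (g.σ u.2 x.1.2) * y u‖ ^ 2 ≤ B' * ∑ u, ‖y u‖ ^ 2 := by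
  rw [sum_coe_sort (Al g t l) (fun j => ‖∑ u ∈ Gs g Bad j, star (g.σ u.2 j.2) * y u‖ ^ 2)]
  have hterm : ∀ j : S × P, ∑ u ∈ Gs g Bad j, star (g.σ u.2 j.2) * y u =
      ∑ c ∈ g.ch j.2, star (g.σ c j.2) * (if (j.1, c) ∈ Bad then 0 else y (j.1, c)) := by
    intro j
    unfold Gs
    rw [← sum_image (s := g.ch j.2) (g := fun c => (j.1, c))
      (f := fun u : S × P => star (g.σ u.2 j.2) * (if u ∈ Bad then 0 else y u))
      (fun a _ b _ hab => (Prod.ext_iff.1 hab).2)]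
    have hs : (((g.ch j.2).image fun c => (j.1, c)) \ Bad) ⊆ ((g.ch j.2).image fun c => (j.1, c)) := sdiff_subset
    rw [← sum_subset hs (f := fun u : S × P => star (g.σ u.2 j.2) * (if u ∈ Bad then 0 else y u))]
    · apply sum_congr rfl
      intro u hu
      rw [if_neg (mem_sdiff.1 hu).2]
    · intro u hu1 hu2
      have hu3 : u ∈ Bad := by
        by_contra h
        exact hu2 (mem_sdiff.2 ⟨hu1, h⟩)
      rw [if_pos hu3, mul_zero]
  have h1 : ∑ j ∈ Al g t l, ‖∑ u ∈ Gs g Bad j, star (g.σ u.2 j.2) * y u‖ ^ 2 ≤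
      ∑ j ∈ univ.filter (fun j : S × P => g.lev j.2 = l),
        ‖∑ u ∈ Gs g Bad j, star (g.σ u.2 j.2) * y u‖ ^ 2 := by
    apply sum_le_sum_of_subset_of_nonneg
    · intro j hj
      exact mem_filter.2 ⟨mem_univ _, (s5_mem_Al.1 hj).2⟩
    · intro _ _ _
      positivity
  refine le_trans h1 ?_
  rw [sum_filter, Fintype.sum_prod_type, Fintype.sum_prod_type, mul_sum]
  apply sum_le_sum
  intro s _
  have h2 := hAdj l hl (fun c => if (s, c) ∈ Bad then 0 else y (s, c))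
  rw [sum_filter] at h2
  have h3 : ∑ c, ‖(if (s, c) ∈ Bad then 0 else y (s, c) : ℂ)‖ ^ 2 ≤ ∑ c, ‖y (s, c)‖ ^ 2 := by
    apply sum_le_sum
    intro c _
    split_ifs with h
    · rw [norm_zero]
      have : (0 : ℝ) ≤ ‖y (s, c)‖ ^ 2 := by positivity
      linarith
    · exact le_rfl
  have h4 : (0 : ℝ) ≤ ∑ c, ‖(if (s, c) ∈ Bad then 0 else y (s, c) : ℂ)‖ ^ 2 :=
    sum_nonneg fun _ _ => by positivity
  calc ∑ v, (if g.lev (s, v).2 = l then ‖∑ u ∈ Gs g Bad (s, v), star (g.σ u.2 (s, v).2) * y u‖ ^ 2 else 0)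
      = ∑ v, (if g.lev v = l then ‖∑ c ∈ g.ch v, star (g.σ c v) *
          (fun c => if (s, c) ∈ Bad then 0 else y (s, c)) c‖ ^ 2 else 0) := by
        apply sum_congr rfl
        intro v _
        rw [hterm (s, v)]
    _ ≤ B l * ∑ c, ‖(fun c => if (s, c) ∈ Bad then 0 else y (s, c)) c‖ ^ 2 := h2
    _ ≤ B' * ∑ c, ‖(if (s, c) ∈ Bad then 0 else y (s, c) : ℂ)‖ ^ 2 := mul_le_mul_of_nonneg_right hB h4
    _ ≤ B' * ∑ c, ‖y (s, c)‖ ^ 2 := mul_le_mul_of_nonneg_left h3 hB'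

theorem s5_ext {A : Finset (S × P)} (F : ℂ → ℝ) (hF : F 0 = 0) (y : S × P → ℂ) :
    ∑ u, F (if u ∈ A then y u else 0) = ∑ u ∈ A, F (y u) := by
  rw [← sum_filter_add_sum_filter_not univ (fun u => u ∈ A)]
  rw [filter_mem_eq_inter, univ_inter]
  have h1 : ∑ u ∈ univ.filter (fun u => ¬ u ∈ A), F (if u ∈ A then y u else 0) = 0 := by
    apply sum_eq_zero
    intro u hu
    rw [if_neg (mem_filter.1 hu).2, hF]
  rw [h1, add_zero]
  apply sum_congr rfl
  intro u hu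
  rw [if_pos hu]

theorem hS5X : StS5x := by
  intro hDec hBon hPel hAdj P _ _ k b d m J Q B g S _ _ t p lam E Bad l ψ κ ζ ε ha hc τ z s0 hp1 hp2 hlam hd hl hB
    hP4 hP5 hκ hζ hζε hDC f hf hf1 q hq hqk
  have hp0 : 0 < p := by linarith
  rcases Nat.eq_or_lt_of_le hq with rfl | hlq
  · refine ⟨f, 0, ?_, ?_, ?_⟩
    · intro j _
      have h0 : ∀ i, psiN g p lam Bad l ψ l j i = if i = j then 1 else 0 := by
        intro i
        unfold psiN
        rw [if_pos rfl]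
      unfold pc
      rw [sum_eq_single j]
      · rw [h0, if_pos rfl]
        simp
      · intro i _ hij
        rw [h0, if_neg hij]
        simp
      · intro h
        exact absurd (mem_univ j) h
    · have h1 : ∑ j ∈ Al g t l, ‖f j‖ ^ p ≤ np p f :=
        sum_le_sum_of_subset_of_nonneg (subset_univ _) fun _ _ _ => Real.rpow_nonneg (norm_nonneg _) _
      linarith
    · simp
      positivity
  · obtain ⟨y1, y2, hy, hy1, hy2⟩ := hP5 f hf hf1 q (by omega) hqk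
    have hε : 0 ≤ ε := hζ.trans hζε
    have hsub : ∀ j ∈ Al g t l, ∀ u ∈ Gs g Bad j, u ∈ Al g t (l + 1) ∧ u ∉ Bad := by
      intro j hj u hu
      obtain ⟨⟨hu1, hu2⟩, hu3⟩ := s5_mem_Gs.1 hu
      obtain ⟨hj1, hj2⟩ := s5_mem_Al.1 hj
      refine ⟨s5_mem_Al.2 ⟨by rw [hu1]; exact hj1, ?_⟩, hu3⟩
      rw [g.ch_lev _ _ hu2, hj2]
    obtain ⟨Y1, hY1⟩ : ∃ Y1 : S × P → ℂ, Y1 = fun u => if u ∈ Al g t (l + 1) then y1 u else 0 := ⟨_, rfl⟩
    obtain ⟨Y2, hY2⟩ : ∃ Y2 : S × P → ℂ, Y2 = fun u => if u ∈ Al g t (l + 1) then y2 u else 0 := ⟨_, rfl⟩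
    have hYs : ∀ u ∈ Al g t (l + 1), Y1 u + Y2 u = pc (ψ q u) f := by
      intro u hu
      rw [hY1, hY2]
      simp only
      rw [if_pos hu, if_pos hu]
      exact (hy u hu).symm
    have hnp : np p f ^ (1 / p) ≤ 1 := by
      apply Real.rpow_le_one _ hf1 (by positivity)
      exact sum_nonneg fun _ _ => Real.rpow_nonneg (norm_nonneg _) _
    obtain ⟨z1, z2, hz, hz1, hz2⟩ := hDec hBon hPel (S × P) {j // j ∈ Al g t l} p
      (fun j => Gs g Bad j.1) (fun u j => star (g.σ u.2 j.1.2))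
      (fun j => wt lam (d l) (Gs g Bad j.1).card) Y1 Y2 κ ζ ε z (2 * d l) ha hc τ (d l) (m l) s0 (J l) (Q l)
      hp1 hp2 (hd l) hDC (by linarith) (by positivity)
      (by
        intro u j
        rw [norm_star, g.uni])
      (fun j => s5_wt hlam _ _)
      (fun j => s5_card hl j.2)
      (by
        intro u
        rcases (univ.filter fun j : {j // j ∈ Al g t l} => u ∈ Gs g Bad j.1).eq_empty_or_nonempty with
          h0 | ⟨j0, hj0⟩
        · rw [h0, card_empty]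
          exact Nat.zero_le _
        · have key : ∀ j : {j // j ∈ Al g t l}, u ∈ Gs g Bad j.1 →
              u.1 = j.1.1 ∧ u.2 ∈ g.ch j.1.2 ∧ g.lev j.1.2 = l := by
            intro j hj
            obtain ⟨⟨hu1, hu2⟩, _⟩ := s5_mem_Gs.1 hj
            exact ⟨hu1, hu2, (s5_mem_Al.1 j.2).2⟩
          have hk0 := key j0 (mem_filter.1 hj0).2
          have hlev : g.lev u.2 - 1 = l := by
            rw [g.ch_lev _ _ hk0.2.1, hk0.2.2]
            omega
          have hcp := g.card_par u.2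
          rw [hlev] at hcp
          refine le_trans ?_ hcp
          apply card_le_card_of_injOn (fun j : {j // j ∈ Al g t l} => j.1.2)
          · intro j hj
            have hj' := key j (mem_filter.1 (mem_coe.1 hj)).2
            exact mem_coe.2 (mem_filter.2 ⟨mem_univ _, hj'.2.1⟩)
          · intro j hj j' hj' hjj
            have h1 := key j (mem_filter.1 (mem_coe.1 hj)).2
            have h2 := key j' (mem_filter.1 (mem_coe.1 hj')).2
            exact Subtype.ext (Prod.ext (h1.1.symm.trans h2.1) hjj))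
      (by
        intro j j' hjj
        exact s5_share fun h => hjj (Subtype.ext h))
      (fun y => s5_l2 hl (hAdj P k b d m J Q B g).1 hB (by positivity) y)
      (fun T' U' h0 h1 h2 => s5_core hl T' U' h0 h1 h2)
      (by
        rw [hY1]
        simp only
        rw [s5_ext (fun x : ℂ => ‖x‖ ^ p) (by rw [norm_zero, Real.zero_rpow hp0.ne']) y1]
        exact hy1)
      (by
        rw [hY2]
        simp only
        rw [s5_ext (fun x : ℂ => ‖x‖ ^ 2) (by simp) y2]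
        exact hy2)
      hζ hζε
      (by
        intro j u hu
        obtain ⟨h2, h3⟩ := hsub j.1 j.2 u hu
        rw [hYs u h2]
        have h4 := hP4 u h2 h3 q (by omega) hqk f hf
        have h5 : ε * np p f ^ (1 / p) ≤ ε * 1 := mul_le_mul_of_nonneg_left hnp hε
        linarith)
    refine ⟨fun j => if h : j ∈ Al g t l then z1 ⟨j, h⟩ else 0,
      fun j => if h : j ∈ Al g t l then z2 ⟨j, h⟩ else 0, ?_, ?_, ?_⟩
    · intro j hj
      simp only
      rw [dif_pos hj, dif_pos hj, s5_psi hlq, ← hz ⟨j, hj⟩]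
      congr 1
      apply sum_congr rfl
      intro u hu
      rw [hYs u (hsub j hj u hu).1]
    · refine le_trans (le_of_eq ?_) hz1
      rw [← sum_coe_sort (Al g t l)]
      apply sum_congr rfl
      intro x _
      simp only
      rw [dif_pos x.2]
    · refine le_trans (le_of_eq ?_) hz2
      rw [← sum_coe_sort (Al g t l)]
      apply sum_congr rfl
      intro x _
      simp only
      rw [dif_pos x.2]

end Pool.Agent.Helper57.XP
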